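import Pool.Agent.Y382.Poly.Classes

/-!
# MP_fc5d3b_co: Klarner's constant is the limit of a computable strictly decreasing sequence of
rational numbers
-/

namespace Pool.Agent.Results.MP_fc5d3b_co.KlarnerComputable

open Filter Topology

/-- The number of fixed `n`-ominoes: translation classes of edge-connected sets of `n` cells. -/
noncomputable def t (n : ℕ) : ℕ :=
  Set.ncard {C : Set (Finset (ℤ × ℤ)) | ∃ S : Finset (ℤ × ℤ), S.card = n ∧
    ((SimpleGraph.fromRel (fun p q : ℤ × ℤ => |p.1 - q.1| + |p.2 - q.2| = 1)).induce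
      (S : Set (ℤ × ℤ))).Connected ∧
    C = {T | ∃ v : ℤ × ℤ, T = S.image (fun p => p + v)}}

/-- Some algorithm outputs, on input `n`, a numerator and a positive denominator of `β n`. -/
def IsComputable (β : ℕ → ℚ) : Prop :=
  ∃ p q : ℕ → ℕ, Computable p ∧ Computable q ∧ ∀ n, 0 < q n ∧ β n = (p n : ℚ) / (q n : ℚ)

/-- The limit `λ = lim t(n)^(1/n)` exists and is the limit of a computable strictly decreasing
sequence of rational numbers. -/
theorem result :
    ∃ lam : ℝ, Tendsto (fun n : ℕ => (t n : ℝ) ^ (1 / (n : ℝ))) atTop (𝓝 lam) ∧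
      ∃ β : ℕ → ℚ, IsComputable β ∧ StrictAnti β ∧
        Tendsto (fun n => (β n : ℝ)) atTop (𝓝 lam) := by
  refine ⟨Pool.Agent.Y382.Poly.lam, ?_, Pool.Agent.Y382.Poly.exists_beta⟩
  have h : ∀ n, t n = Pool.Agent.Y382.Poly.t n := fun n => Pool.Agent.Y382.Poly.ncard_classes n
  simp only [h]
  exact Pool.Agent.Y382.Poly.tendsto_lam

end Pool.Agent.Results.MP_fc5d3b_co.KlarnerComputable
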